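import Pool.Agent.MP_65e1c6_gt.Exist

open Set Filter Topology
open scoped ContDiff

namespace Pool.Agent.Results.MP_65e1c6_gt.Disproof

/-- The metric `du^2 + 2 sin om du dv + dv^2` is locally Euclidean on `D`: every point of `D` has an
open neighbourhood `U ⊆ D` with a `C^1` map `f` from `U` to the Euclidean plane such that
`|f_u| = |f_v| = 1` and `f_u · f_v = sin om` on `U`. -/
def LocallyEuclidean (D : Set (ℝ × ℝ)) (om : ℝ × ℝ → ℝ) : Prop :=
  ∀ p ∈ D, ∃ U : Set (ℝ × ℝ), IsOpen U ∧ p ∈ U ∧ U ⊆ D ∧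
    ∃ f : ℝ × ℝ → EuclideanSpace ℝ (Fin 2), ContDiffOn ℝ 1 f U ∧ ∀ q ∈ U,
      ‖fderiv ℝ f q (1, 0)‖ = 1 ∧ ‖fderiv ℝ f q (0, 1)‖ = 1 ∧
      inner ℝ (fderiv ℝ f q (1, 0)) (fderiv ℝ f q (0, 1)) = Real.sin (om q)

/-- `om` is additive near `p`: there are an open rectangle `(a, b) × (c, d) ⊆ D` containing `p` and
continuous functions `g` on `(a, b)` and `h` on `(c, d)` with `om (u, v) = g u + h v` on it. -/
def AdditiveNear (D : Set (ℝ × ℝ)) (om : ℝ × ℝ → ℝ) (p : ℝ × ℝ) : Prop :=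
  ∃ a b c d : ℝ, p ∈ Ioo a b ×ˢ Ioo c d ∧ Ioo a b ×ˢ Ioo c d ⊆ D ∧
    ∃ g h : ℝ → ℝ, ContinuousOn g (Ioo a b) ∧ ContinuousOn h (Ioo c d) ∧
      ∀ u ∈ Ioo a b, ∀ v ∈ Ioo c d, om (u, v) = g u + h v

open Pool.Agent.MP_65e1c6_gt

lemma polar_aux {p q : ℂ} (hp : ‖p‖ = 1) (hq : ‖q‖ = 1) (hp1 : ‖p - 1‖ ≤ 13 / 100)
    (hq1 : ‖q - Complex.I‖ ≤ 13 / 100) :
    |inner ℝ p q| < 1 ∧ 0 < Real.cos (Real.arcsin (inner ℝ p q)) ∧
    q = p * (Complex.I * Complex.exp (-((Real.arcsin (inner ℝ p q) : ℝ) * Complex.I))) := by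
  have h1 := (Complex.abs_re_le_norm (p - 1)).trans hp1
  have h2 := (Complex.abs_im_le_norm (p - 1)).trans hp1
  have h3 := (Complex.abs_re_le_norm (q - Complex.I)).trans hq1
  have h4 := (Complex.abs_im_le_norm (q - Complex.I)).trans hq1
  simp only [Complex.sub_re, Complex.sub_im, Complex.one_re, Complex.one_im, Complex.I_re,
    Complex.I_im, sub_zero] at h1 h2 h3 h4
  rw [abs_le] at h1 h2 h3 h4
  have hpn : p.re * p.re + p.im * p.im = 1 := by
    have := Complex.mul_conj p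
    rw [Complex.normSq_eq_norm_sq, hp] at this
    have := congrArg Complex.re this
    simp at this
    exact this
  have hqn : q.re * q.re + q.im * q.im = 1 := by
    have := Complex.mul_conj q
    rw [Complex.normSq_eq_norm_sq, hq] at this
    have := congrArg Complex.re this
    simp at this
    exact this
  have hin : inner ℝ p q = q.re * p.re + q.im * p.im := by
    rw [Complex.inner]
    simp
  set s := inner ℝ p q with hs
  set d := p.re * q.im - p.im * q.re with hd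
  have hid : s ^ 2 + d ^ 2 = 1 := by
    rw [hin, hd]
    linear_combination (q.re ^ 2 + q.im ^ 2) * hpn + hqn
  have hdpos : 0 < d := by
    rw [hd]
    nlinarith
  have hs1 : |s| < 1 := by
    rw [abs_lt]
    constructor <;> nlinarith
  have hcos : Real.cos (Real.arcsin s) = d := by
    rw [Real.cos_arcsin]
    have : 1 - s ^ 2 = d ^ 2 := by linarith
    rw [this, Real.sqrt_sq hdpos.le]
  have hsin : Real.sin (Real.arcsin s) = s :=
    Real.sin_arcsin (by linarith [(abs_lt.mp hs1).1]) (by linarith [(abs_lt.mp hs1).2])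
  refine ⟨hs1, by rw [hcos]; exact hdpos, ?_⟩
  have e1 : Complex.exp (-((Real.arcsin s : ℝ) * Complex.I)) = (d : ℂ) - s * Complex.I := by
    have : -(((Real.arcsin s : ℝ) : ℂ) * Complex.I) = ((-Real.arcsin s : ℝ) : ℂ) * Complex.I := by
      push_cast; ring
    rw [this]
    apply Complex.ext
    · rw [Complex.exp_ofReal_mul_I_re, Real.cos_neg, hcos]
      simp
    · rw [Complex.exp_ofReal_mul_I_im, Real.sin_neg, hsin]
      simp
  rw [e1]
  apply Complex.ext
  · simp only [Complex.mul_re, Complex.mul_im, Complex.sub_re, Complex.sub_im, Complex.ofReal_re,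
      Complex.ofReal_im, Complex.I_re, Complex.I_im]
    rw [hin, hd]
    linear_combination (-q.re) * hpn
  · simp only [Complex.mul_re, Complex.mul_im, Complex.sub_re, Complex.sub_im, Complex.ofReal_re,
      Complex.ofReal_im, Complex.I_re, Complex.I_im]
    rw [hin, hd]
    linear_combination (-q.im) * hpn

/-- Local constancy in the second variable of the first partial derivative. -/
lemma local_const {f : ℝ × ℝ → ℂ} (hf : ContDiffOn ℝ 1 f DD)
    (hU : ∀ x ∈ DD, ‖pU f x‖ = 1) (hV : ∀ x ∈ DD, ‖pV f x‖ = 1)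
    (hU1 : ∀ x ∈ DD, ‖pU f x - 1‖ ≤ 13 / 100) (hV1 : ∀ x ∈ DD, ‖pV f x - Complex.I‖ ≤ 13 / 100)
    {p : ℝ × ℝ}
    (had : AdditiveNear DD (fun x => Real.arcsin (inner ℝ (pU f x) (pV f x))) p) :
    ∀ᶠ v in 𝓝 p.2, pU f (p.1, v) = pU f p := by
  obtain ⟨a, b, c, d, hpm, hsub, g, h, hg, hh, hgh⟩ := had
  obtain ⟨⟨hpa, hpb⟩, ⟨hpc, hpd⟩⟩ := hpm
  -- shrink to a closed rectangle and extend `g`, `h` continuously
  obtain ⟨a', haa', ha'p⟩ := exists_between hpa
  obtain ⟨b', hpb', hb'b⟩ := exists_between hpb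
  obtain ⟨c', hcc', hc'p⟩ := exists_between hpc
  obtain ⟨d', hpd', hd'd⟩ := exists_between hpd
  have hab : a' ≤ b' := (ha'p.trans hpb').le
  have hcd : c' ≤ d' := (hc'p.trans hpd').le
  set g' : ℝ → ℝ := fun u => g (projIcc a' b' hab u) with hg'
  set h' : ℝ → ℝ := fun v => h (projIcc c' d' hcd v) with hh'
  have hg'c : Continuous g' := by
    refine hg.comp_continuous (continuous_subtype_val.comp continuous_projIcc) fun u => ?_
    have := (projIcc a' b' hab u).2
    exact ⟨lt_of_lt_of_le haa' this.1, lt_of_le_of_lt this.2 hb'b⟩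
  have hh'c : Continuous h' := by
    refine hh.comp_continuous (continuous_subtype_val.comp continuous_projIcc) fun u => ?_
    have := (projIcc c' d' hcd u).2
    exact ⟨lt_of_lt_of_le hcc' this.1, lt_of_le_of_lt this.2 hd'd⟩
  have hR : Ioo a' b' ×ˢ Ioo c' d' ∈ 𝓝 p :=
    (isOpen_Ioo.prod isOpen_Ioo).mem_nhds ⟨⟨ha'p, hpb'⟩, ⟨hc'p, hpd'⟩⟩
  have hRsub : Ioo a' b' ×ˢ Ioo c' d' ⊆ DD := by
    refine Subset.trans (prod_mono ?_ ?_) hsub
    · exact Ioo_subset_Ioo haa'.le hb'b.le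
    · exact Ioo_subset_Ioo hcc'.le hd'd.le
  have hval : ∀ x ∈ Ioo a' b' ×ˢ Ioo c' d',
      Real.arcsin (inner ℝ (pU f x) (pV f x)) = g' x.1 + h' x.2 := by
    rintro ⟨u, v⟩ ⟨hu, hv⟩
    have := hgh u ⟨haa'.trans hu.1, hu.2.trans hb'b⟩ v ⟨hcc'.trans hv.1, hv.2.trans hd'd⟩
    refine this.trans ?_
    simp only [hg', hh']
    rw [projIcc_of_mem hab ⟨hu.1.le, hu.2.le⟩, projIcc_of_mem hcd ⟨hv.1.le, hv.2.le⟩]
  have hpol : ∀ x ∈ DD, _ := fun x hx => polar_aux (hU x hx) (hV x hx) (hU1 x hx) (hV1 x hx)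
  have hdiff : ∀ x ∈ Ioo a' b' ×ˢ Ioo c' d', DifferentiableAt ℝ f x := fun x hx =>
    (hf.contDiffAt (isOpen_DD.mem_nhds (hRsub hx))).differentiableAt (by simp)
  have key := rigid hR hdiff hg'c hh'c
    (fun x hx => by
      have := (hpol x (hRsub hx)).2.2
      rw [hval x hx] at this
      exact this)
    (fun x hx => by
      have := (hpol x (hRsub hx)).2.1
      rw [hval x hx] at this
      exact this.ne')
    (fun x hx => hU x (hRsub hx))
  have hcv : ContinuousAt (fun v : ℝ => (p.1, v)) p.2 := by fun_prop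
  have := hcv.eventually (p := fun x => pU f x * Complex.exp (-(g' x.1 * Complex.I)) =
      pU f p * Complex.exp (-(g' p.1 * Complex.I))) key
  filter_upwards [this] with v hv
  exact mul_right_cancel₀ (Complex.exp_ne_zero _) hv

/-- The negated form of the problem: there are an open `D` in the plane, a continuous `om` on `D`
with `|sin om| < 1` and a point `p` of `D` such that the metric `du^2 + 2 sin om du dv + dv^2` is
locally Euclidean on `D`, but `om` is additive on no open rectangle around `p`. -/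
theorem result : ∃ (D : Set (ℝ × ℝ)) (om : ℝ × ℝ → ℝ), IsOpen D ∧ ContinuousOn om D ∧
    (∀ q ∈ D, |Real.sin (om q)| < 1) ∧ LocallyEuclidean D om ∧
    ∃ p ∈ D, ¬ AdditiveNear D om p := by
  obtain ⟨f, hf, hfx⟩ := exists_flexible
  have hpol : ∀ x ∈ DD, _ := fun x hx =>
    polar_aux (hfx x hx).2.1 (hfx x hx).2.2.1 (hfx x hx).2.2.2.1 (hfx x hx).2.2.2.2
  have hsin : ∀ x ∈ DD, Real.sin (Real.arcsin (inner ℝ (pU f x) (pV f x))) =
      inner ℝ (pU f x) (pV f x) := fun x hx =>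
    Real.sin_arcsin (by linarith [(abs_lt.mp (hpol x hx).1).1])
      (by linarith [(abs_lt.mp (hpol x hx).1).2])
  have hdiff : ∀ x ∈ DD, DifferentiableAt ℝ f x := fun x hx =>
    (hf.contDiffAt (isOpen_DD.mem_nhds hx)).differentiableAt (by simp)
  have hfc : ContinuousOn (fderiv ℝ f) DD := hf.continuousOn_fderiv_of_isOpen isOpen_DD le_rfl
  have hpUc : ContinuousOn (pU f) DD := hfc.clm_apply continuousOn_const
  have hpVc : ContinuousOn (pV f) DD := hfc.clm_apply continuousOn_const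
  refine ⟨DD, fun x => Real.arcsin (inner ℝ (pU f x) (pV f x)), isOpen_DD, ?_, ?_, ?_, ?_⟩
  · exact Real.continuous_arcsin.comp_continuousOn (ContinuousOn.inner hpUc hpVc)
  · intro x hx
    simp only
    rw [hsin x hx]
    exact (hpol x hx).1
  · intro p hp
    refine ⟨DD, isOpen_DD, hp, Subset.rfl, fun x => Complex.orthonormalBasisOneI.repr (f x), ?_, ?_⟩
    · exact Complex.orthonormalBasisOneI.repr.contDiff.comp_contDiffOn hf
    · intro q hq
      have h1 : HasFDerivAt (fun x => Complex.orthonormalBasisOneI.repr (f x))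
          ((Complex.orthonormalBasisOneI.repr.toContinuousLinearEquiv :
            ℂ →L[ℝ] EuclideanSpace ℝ (Fin 2)).comp (fderiv ℝ f q)) q :=
        (Complex.orthonormalBasisOneI.repr.toContinuousLinearEquiv.hasFDerivAt).comp q
          (hdiff q hq).hasFDerivAt
      rw [h1.fderiv]
      have e1 : ∀ w : ℝ × ℝ, ((Complex.orthonormalBasisOneI.repr.toContinuousLinearEquiv :
            ℂ →L[ℝ] EuclideanSpace ℝ (Fin 2)).comp (fderiv ℝ f q)) w =
          Complex.orthonormalBasisOneI.repr (fderiv ℝ f q w) := fun w => rfl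
      rw [e1, e1, LinearIsometryEquiv.norm_map, LinearIsometryEquiv.norm_map,
        LinearIsometryEquiv.inner_map_map]
      exact ⟨(hfx q hq).2.1, (hfx q hq).2.2.1, (hsin q hq).symm⟩
  · by_contra hcon
    push Not at hcon
    -- the first partial derivative does not depend on the second variable
    have hconst : ∀ u ∈ Ioo (0 : ℝ) 1, ∀ v1 ∈ Ioo (0 : ℝ) 1, ∀ v2 ∈ Ioo (0 : ℝ) 1,
        pU f (u, v1) = pU f (u, v2) := by
      intro u hu v1 hv1 v2 hv2
      have hder : ∀ v ∈ Ioo (0 : ℝ) 1, HasDerivAt (fun v => pU f (u, v)) 0 v := by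
        intro v hv
        have h1 := local_const hf (fun x hx => (hfx x hx).2.1) (fun x hx => (hfx x hx).2.2.1)
          (fun x hx => (hfx x hx).2.2.2.1) (fun x hx => (hfx x hx).2.2.2.2)
          (hcon (u, v) ⟨hu, hv⟩)
        exact (hasDerivAt_const v (pU f (u, v))).congr_of_eventuallyEq h1
      exact isOpen_Ioo.is_const_of_deriv_eq_zero isPreconnected_Ioo
        (fun v hv => (hder v hv).differentiableAt.differentiableWithinAt)
        (fun v hv => (hder v hv).deriv) hv1 hv2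
    have hdu : ∀ v ∈ Ioo (0 : ℝ) 1, ∀ u ∈ Ioo (0 : ℝ) 1,
        HasDerivAt (fun u => f (u, v)) (pU f (u, v)) u := by
      intro v hv u hu
      have h1 := (hdiff (u, v) ⟨hu, hv⟩).hasFDerivAt
      have h2 : HasDerivAt (fun s : ℝ => (s, v)) ((1 : ℝ), (0 : ℝ)) u :=
        (hasDerivAt_id u).prodMk (hasDerivAt_const u v)
      exact h1.comp_hasDerivAt u h2
    have hq1 : (1 / 4 : ℝ) ∈ Ioo (0 : ℝ) 1 := by constructor <;> norm_num
    have hq3 : (3 / 4 : ℝ) ∈ Ioo (0 : ℝ) 1 := by constructor <;> norm_num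
    have hder2 : ∀ u ∈ Ioo (0 : ℝ) 1,
        HasDerivAt (fun u => f (u, 3 / 4) - f (u, 1 / 4)) 0 u := by
      intro u hu
      have := (hdu _ hq3 u hu).sub (hdu _ hq1 u hu)
      rw [hconst u hu _ hq3 _ hq1, sub_self] at this
      exact this
    have hmix : f (3 / 4, 3 / 4) - f (3 / 4, 1 / 4) = f (1 / 4, 3 / 4) - f (1 / 4, 1 / 4) :=
      isOpen_Ioo.is_const_of_deriv_eq_zero (f := fun u => f (u, 3 / 4) - f (u, 1 / 4))
        isPreconnected_Ioo
        (fun v hv => (hder2 v hv).differentiableAt.differentiableWithinAt)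
        (fun v hv => (hder2 v hv).deriv) hq3 hq1
    have m1 := (hfx (3 / 4, 3 / 4) ⟨hq3, hq3⟩).1
    have m2 := (hfx (3 / 4, 1 / 4) ⟨hq3, hq1⟩).1
    have m3 := (hfx (1 / 4, 3 / 4) ⟨hq1, hq3⟩).1
    have m4 := (hfx (1 / 4, 1 / 4) ⟨hq1, hq1⟩).1
    have hid : (f0 (3 / 4, 3 / 4) - f (3 / 4, 3 / 4)) - (f0 (3 / 4, 1 / 4) - f (3 / 4, 1 / 4)) -
        ((f0 (1 / 4, 3 / 4) - f (1 / 4, 3 / 4)) - (f0 (1 / 4, 1 / 4) - f (1 / 4, 1 / 4))) =
        ((1 / 80000 : ℝ) : ℂ) := by
      have hf0 : f0 (3 / 4, 3 / 4) - f0 (3 / 4, 1 / 4) - (f0 (1 / 4, 3 / 4) - f0 (1 / 4, 1 / 4)) =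
          ((1 / 80000 : ℝ) : ℂ) := by
        unfold f0
        simp only [Complex.real_smul]
        push_cast
        ring
      rw [← hf0]
      linear_combination (-1 : ℂ) * hmix
    have hn := congrArg norm hid
    rw [Complex.norm_real, Real.norm_eq_abs, abs_of_pos (by norm_num)] at hn
    have hb : (1 / 80000 : ℝ) ≤ 1 / 900000 + 1 / 900000 + (1 / 900000 + 1 / 900000) := by
      rw [← hn]
      refine (norm_sub_le _ _).trans (add_le_add ?_ ?_)
      · exact (norm_sub_le _ _).trans (add_le_add m1 m2)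
      · exact (norm_sub_le _ _).trans (add_le_add m3 m4)
    norm_num at hb

end Pool.Agent.Results.MP_65e1c6_gt.Disproof
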